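import Mathlib
import Pool.Agent.RKH.Two

/-!
The class of graphs generated by the finite graphs under well ordered sums; partial copies and
the first block of a sum which cannot be realised.
-/

set_option autoImplicit false

open Cardinal Order

namespace Pool.Agent.RKQ

universe u

open Pool.Agent.RKH

/-- The sets `s` of vertices of `H` for which `H[s]` is obtained from finite graphs by iterated
well ordered sums: `s` is finite, or `s` is partitioned into blocks `{w ∈ s | bl w = x}`, `x ∈ Th`,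
of the class, where `Th` is well ordered and every vertex `v` of `s` is joined to all (if `t v`
holds) or to none (otherwise) of the vertices of the later blocks. -/
inductive Cls {W : Type u} (H : SimpleGraph W) : Set W → Prop
  | fin (s : Set W) (hs : s.Finite) : Cls H s
  | sum (s : Set W) (Th : Type u) (i1 : LinearOrder Th) (i2 : WellFoundedLT Th) (bl : W → Th)
      (t : W → Prop) (ht : ∀ v ∈ s, ∀ w ∈ s, bl v < bl w → (H.Adj v w ↔ t v))
      (hs : ∀ x, Cls H {w | w ∈ s ∧ bl w = x}) : Cls H s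

/-- The class with ranks. -/
def Rk {W : Type u} (H : SimpleGraph W) (o : Ordinal.{u}) (s : Set W) : Prop :=
  s.Finite ∨ ∃ (Th : Type u) (_ : LinearOrder Th) (_ : WellFoundedLT Th) (bl : W → Th)
    (t : W → Prop), (∀ v ∈ s, ∀ w ∈ s, bl v < bl w → (H.Adj v w ↔ t v)) ∧
      ∀ x, ∃ (o' : Ordinal.{u}) (_ : o' < o), Rk H o' {w | w ∈ s ∧ bl w = x}
termination_by o
decreasing_by assumption

theorem rk_iff {W : Type u} (H : SimpleGraph W) (o : Ordinal.{u}) (s : Set W) : Rk H o s ↔
    (s.Finite ∨ ∃ (Th : Type u) (_ : LinearOrder Th) (_ : WellFoundedLT Th) (bl : W → Th)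
    (t : W → Prop), (∀ v ∈ s, ∀ w ∈ s, bl v < bl w → (H.Adj v w ↔ t v)) ∧
      ∀ x, ∃ (o' : Ordinal.{u}) (_ : o' < o), Rk H o' {w | w ∈ s ∧ bl w = x}) := by
  rw [Rk]

theorem exists_rk {W : Type u} {H : SimpleGraph W} {s : Set W} (h : Cls H s) :
    ∃ o : Ordinal.{u}, Rk H o s := by
  induction h with
  | fin s hs =>
    refine ⟨0, ?_⟩
    rw [rk_iff]
    exact Or.inl hs
  | sum s Th i1 i2 bl t ht hs ih =>
    choose o ho using ih
    refine ⟨⨆ x, succ (o x), ?_⟩
    rw [rk_iff]
    refine Or.inr ⟨Th, i1, i2, bl, t, ht, fun x => ⟨o x, ?_, ho x⟩⟩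
    exact lt_of_lt_of_le (lt_succ (o x)) (Ordinal.le_iSup (fun x => succ (o x)) x)

section

variable {C V W : Type u} (D : V → V → Option (Bool × C)) (cc : Bool → C)

open Classical in
/-- `H[s]` has a copy in `N`, the vertex for `x` has the property `P x`. -/
def Real (H : SimpleGraph W) (N : Set V) (s : Set W) (P : W → V → Prop) : Prop :=
  ∃ E : W → N, (∀ x ∈ s, P x (E x)) ∧ ∀ x ∈ s, ∀ x' ∈ s, x ≠ x' →
    D (E x) (E x') = some (decide (H.Adj x x'), cc (decide (H.Adj x x')))

open Classical in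
/-- The condition for a vertex `v` for `x`: it is over the trunk `F` (the blocks before `x0`) and
fits to the top `Y`. -/
def Nxt {Th : Type u} [LinearOrder Th] (N : Set V) (s : Set W) (bl : W → Th) (t : W → Prop)
    (Y : V) (x0 : Th) (F : W → N) (P : W → V → Prop) : W → V → Prop := fun x v =>
  P x v ∧ D v Y = some (decide (t x), cc (decide (t x))) ∧
    ∀ w ∈ s, bl w < x0 → D (F w) v = some (decide (t w), cc (decide (t w)))

open Classical in
/-- The first block which cannot be realised. -/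
theorem exists_child {Th : Type u} [LinearOrder Th] [WellFoundedLT Th] (H : SimpleGraph W)
    (N : Set V) (v0 : N) (hD : ∀ v w, D v w = D w v) (s : Set W) (bl : W → Th) (t : W → Prop)
    (ht : ∀ v ∈ s, ∀ w ∈ s, bl v < bl w → (H.Adj v w ↔ t v)) (Y : V) (P : W → V → Prop)
    (h : ¬ Real D cc H N s P) :
    ∃ (x0 : Th) (F : W → N),
      (∀ w ∈ s, bl w < x0 → D (F w) Y = some (decide (t w), cc (decide (t w)))) ∧
      ¬ Real D cc H N {w | w ∈ s ∧ bl w = x0} (Nxt D cc N s bl t Y x0 F P) := by
  let Good : ∀ (x : Th) (g : ∀ x' : Th, x' < x → W → N) (F : W → N), Prop := fun x g F =>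
    (∀ w ∈ s, bl w = x → P w (F w) ∧ D (F w) Y = some (decide (t w), cc (decide (t w))) ∧
      ∀ w' ∈ s, ∀ hx : bl w' < x, D (g (bl w') hx w') (F w) =
        some (decide (t w'), cc (decide (t w')))) ∧
    ∀ w ∈ s, bl w = x → ∀ w' ∈ s, bl w' = x → w ≠ w' →
      D (F w) (F w') = some (decide (H.Adj w w'), cc (decide (H.Adj w w')))
  obtain ⟨v, hv⟩ := exists_rec (Th := Th) (C := W → N) (· < ·) wellFounded_lt
    (fun x g c => (∃ F, Good x g F) → Good x g c) (by
      intro x g
      by_cases hF : ∃ F, Good x g F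
      · obtain ⟨F, hF⟩ := hF
        exact ⟨F, fun _ => hF⟩
      · exact ⟨fun _ => v0, fun h => absurd h hF⟩)
  by_cases hall : ∀ x, Good x (fun x' _ => v x') (v x)
  · refine absurd ⟨fun w => v (bl w) w, ?_, ?_⟩ h
    · intro w hw
      exact ((hall (bl w)).1 w hw rfl).1
    · intro w hw w' hw' hne
      rcases lt_trichotomy (bl w) (bl w') with hlt | heq | hlt
      · have h1 := ((hall (bl w')).1 w' hw' rfl).2.2 w hw hlt
        have h2 : decide (H.Adj w w') = decide (t w) := decide_eq_decide.2 (ht w hw w' hw' hlt)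
        rw [h2]
        exact h1
      · have h1 := (hall (bl w)).2 w hw rfl w' hw' heq.symm hne
        dsimp only
        rw [← heq]
        exact h1
      · have h1 := ((hall (bl w)).1 w hw rfl).2.2 w' hw' hlt
        have h2 : decide (H.Adj w w') = decide (t w') :=
          decide_eq_decide.2 ((H.adj_comm w w').trans (ht w' hw' w hw hlt))
        rw [h2, hD]
        exact h1
  · rw [not_forall] at hall
    obtain ⟨x, hx, hmin⟩ := wellFounded_lt.has_min
      {x : Th | ¬ Good x (fun x' _ => v x') (v x)} hall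
    have hlt : ∀ x', x' < x → Good x' (fun x'' _ => v x'') (v x') := fun x' h1 =>
      by_contra fun h2 => hmin x' h2 h1
    refine ⟨x, fun w => v (bl w) w, fun w hw hwx => ((hlt (bl w) hwx).1 w hw rfl).2.1, ?_⟩
    rintro ⟨E, hE1, hE2⟩
    refine hx (hv x ⟨E, ?_, ?_⟩)
    · intro w hw hwx
      obtain ⟨h1, h2, h3⟩ := hE1 w ⟨hw, hwx⟩
      exact ⟨h1, h2, h3⟩
    · intro w hw hwx w' hw' hwx' hne
      exact hE2 w ⟨hw, hwx⟩ w' ⟨hw', hwx'⟩ hne

end

end Pool.Agent.RKQ
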