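import Pool.Agent.RKQ.QMain

/-!
Closure properties and examples of the class of iterated well ordered sums of finite graphs.
-/

set_option autoImplicit false

namespace Pool.Agent.RKQ

universe u

variable {W : Type u} {H : SimpleGraph W}

/-- The class is closed under induced subgraphs. -/
theorem Cls.subset {s s' : Set W} (h : Cls H s) (hs : s' ⊆ s) : Cls H s' := by
  induction h generalizing s' with
  | fin s h => exact Cls.fin _ (h.subset hs)
  | sum s Th i1 i2 bl t ht _ ih =>
    exact Cls.sum s' Th i1 i2 bl t (fun v hv w hw => ht v (hs hv) w (hs hw))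
      fun x => ih x fun w hw => ⟨hs hw.1, hw.2⟩

/-- Only the adjacency inside of `s` matters. -/
theorem Cls.congr {s : Set W} {H' : SimpleGraph W} (h : Cls H s)
    (hH : ∀ v ∈ s, ∀ w ∈ s, (H.Adj v w ↔ H'.Adj v w)) : Cls H' s := by
  induction h with
  | fin s h => exact Cls.fin _ h
  | sum s Th i1 i2 bl t ht _ ih =>
    exact Cls.sum s Th i1 i2 bl t
      (fun v hv w hw hlt => (hH v hv w hw).symm.trans (ht v hv w hw hlt))
      fun x => ih x fun v hv w hw => hH v hv.1 w hw.1

/-- The class is closed under complements. -/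
theorem Cls.compl {s : Set W} (h : Cls H s) : Cls Hᶜ s := by
  induction h with
  | fin s h => exact Cls.fin _ h
  | sum s Th i1 i2 bl t ht _ ih =>
    refine Cls.sum s Th i1 i2 bl (fun v => ¬ t v) (fun v hv w hw hlt => ?_) ih
    have hne : v ≠ w := fun h => lt_irrefl _ (h ▸ hlt)
    rw [SimpleGraph.compl_adj, ht v hv w hw hlt]
    exact ⟨fun h => h.2, fun h => ⟨hne, h⟩⟩

/-- The class is closed under preimages. -/
theorem Cls.comap {W' : Type u} {p : W' → W} (hp : Function.Injective p) {s : Set W}
    (h : Cls H s) : Cls (H.comap p) (p ⁻¹' s) := by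
  induction h with
  | fin s h => exact Cls.fin _ (h.preimage hp.injOn)
  | sum s Th i1 i2 bl t ht _ ih =>
    exact Cls.sum _ Th i1 i2 (fun w => bl (p w)) (fun w => t (p w))
      (fun v hv w hw hlt => ht (p v) hv (p w) hw hlt) fun x => ih x

/-- The vertices of `W` as a set of vertices of a larger graph. -/
theorem Cls.image {W' : Type u} {H' : SimpleGraph W'} (p : H ↪g H') (h : Cls H Set.univ) :
    Cls H' (Set.range p) := by
  have h1 := h.map p.toEmbedding
  have h2 : p.toEmbedding '' Set.univ = Set.range p := by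
    rw [Set.image_univ]
    rfl
  rw [h2] at h1
  refine h1.congr ?_
  rintro _ ⟨v, rfl⟩ _ ⟨w, rfl⟩
  have h3 : (H.map p.toEmbedding).Adj (p.toEmbedding v) (p.toEmbedding w) ↔ H.Adj v w :=
    SimpleGraph.map_adj_apply
  exact h3.trans p.map_adj_iff.symm

/-- The class for an induced subgraph of the class. -/
theorem Cls.of_embedding {W' : Type u} {H' : SimpleGraph W'} (p : H ↪g H')
    (h : Cls H' Set.univ) : Cls H Set.univ := by
  have h1 := h.comap p.injective
  rw [Set.preimage_univ] at h1
  refine h1.congr fun v _ w _ => ?_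
  exact p.map_adj_iff

theorem cls_induce_iff {s : Set W} : Cls (H.induce s) Set.univ ↔ Cls H s := by
  constructor
  · intro h
    have h1 := h.image (SimpleGraph.Embedding.induce s)
    have h2 : Set.range (SimpleGraph.Embedding.induce (G := H) s) = s := by
      ext w
      constructor
      · rintro ⟨v, rfl⟩
        exact v.2
      · intro hw
        exact ⟨⟨w, hw⟩, rfl⟩
    rwa [h2] at h1
  · intro h
    have h1 := h.comap (p := (Subtype.val : s → W)) Subtype.val_injective
    have h2 : (Subtype.val : s → W) ⁻¹' s = Set.univ := by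
      ext w
      simp
    rw [h2] at h1
    exact h1

/-- The sum of the graphs `G x`, `x ∈ Th`, over the well ordered set `Th`: a vertex `v` of `G x` is
joined to all (if `t x v` holds) or to none of the vertices of the later graphs. -/
def wsum {Th : Type u} [LinearOrder Th] {V : Th → Type u} (G : ∀ x, SimpleGraph (V x))
    (t : ∀ x, V x → Prop) : SimpleGraph (Σ x, V x) :=
  SimpleGraph.fromRel fun a b =>
    (a.1 < b.1 ∧ t a.1 a.2) ∨ ∃ (x : Th) (v w : V x), a = ⟨x, v⟩ ∧ b = ⟨x, w⟩ ∧ (G x).Adj v w

theorem wsum_adj_of_lt {Th : Type u} [LinearOrder Th] {V : Th → Type u}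
    (G : ∀ x, SimpleGraph (V x)) (t : ∀ x, V x → Prop) {a b : Σ x, V x} (h : a.1 < b.1) :
    (wsum G t).Adj a b ↔ t a.1 a.2 := by
  rw [wsum, SimpleGraph.fromRel_adj]
  constructor
  · rintro ⟨-, (⟨-, h1⟩ | ⟨x, v, w, rfl, rfl, -⟩) | (⟨h1, -⟩ | ⟨x, v, w, rfl, rfl, -⟩)⟩
    · exact h1
    · exact absurd h (lt_irrefl _)
    · exact absurd h h1.asymm
    · exact absurd h (lt_irrefl _)
  · intro h1
    exact ⟨fun h2 => by rw [h2] at h; exact lt_irrefl _ h, Or.inl (Or.inl ⟨h, h1⟩)⟩

theorem wsum_adj_same {Th : Type u} [LinearOrder Th] {V : Th → Type u}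
    (G : ∀ x, SimpleGraph (V x)) (t : ∀ x, V x → Prop) {x : Th} (v w : V x) :
    (wsum G t).Adj ⟨x, v⟩ ⟨x, w⟩ ↔ (G x).Adj v w := by
  have key : ∀ v w : V x, ((((⟨x, v⟩ : Σ x, V x).1 < (⟨x, w⟩ : Σ x, V x).1) ∧ t x v) ∨
      ∃ (y : Th) (v' w' : V y), (⟨x, v⟩ : Σ x, V x) = ⟨y, v'⟩ ∧ (⟨x, w⟩ : Σ x, V x) = ⟨y, w'⟩ ∧
        (G y).Adj v' w') ↔ (G x).Adj v w := by
    intro v w
    constructor
    · rintro (⟨h1, -⟩ | ⟨y, v', w', h1, h2, h3⟩)
      · exact absurd h1 (lt_irrefl _)
      · cases h1
        cases h2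
        exact h3
    · intro h
      exact Or.inr ⟨x, v, w, rfl, rfl, h⟩
  rw [wsum, SimpleGraph.fromRel_adj]
  constructor
  · rintro ⟨-, h | h⟩
    · exact (key v w).1 h
    · exact ((key w v).1 h).symm
  · intro h
    refine ⟨fun h1 => ?_, Or.inl ((key v w).2 h)⟩
    have h2 : v = w := eq_of_heq (Sigma.mk.inj h1).2
    exact h.ne h2

/-- The class is closed under well ordered sums. -/
theorem cls_wsum {Th : Type u} [LinearOrder Th] [WellFoundedLT Th] {V : Th → Type u}
    (G : ∀ x, SimpleGraph (V x)) (t : ∀ x, V x → Prop) (h : ∀ x, Cls (G x) Set.univ) :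
    Cls (wsum G t) Set.univ := by
  refine Cls.sum Set.univ Th inferInstance inferInstance (fun a => a.1) (fun a => t a.1 a.2)
    (fun v _ w _ hlt => wsum_adj_of_lt G t hlt) fun x => ?_
  let p : G x ↪g wsum G t :=
    ⟨⟨fun v => ⟨x, v⟩, fun v w h => eq_of_heq (Sigma.mk.inj h).2⟩, wsum_adj_same G t _ _⟩
  have h1 := (h x).image p
  have h2 : Set.range p = {w : Σ x, V x | w ∈ Set.univ ∧ w.1 = x} := by
    ext ⟨y, v⟩
    constructor
    · rintro ⟨w, hw⟩
      have h3 : (⟨x, w⟩ : Σ x, V x) = ⟨y, v⟩ := hw
      cases h3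
      exact ⟨trivial, rfl⟩
    · rintro ⟨-, h3⟩
      have h4 : y = x := h3
      subst h4
      exact ⟨v, rfl⟩
  rwa [h2] at h1

/-- A graph is in the class if all its components are. -/
theorem cls_of_components (h : ∀ c : H.ConnectedComponent, Cls H c.supp) :
    Cls H Set.univ := by
  classical
  obtain ⟨r, hr⟩ : ∃ r : LinearOrder H.ConnectedComponent, @WellFoundedLT _ r.toLT :=
    ⟨linearOrderOfSTO WellOrderingRel, WellOrderingRel.isWellOrder.toIsWellFounded⟩
  refine Cls.sum Set.univ H.ConnectedComponent r hr H.connectedComponentMk (fun _ => False)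
    (fun v _ w _ hlt => ?_) fun c => ?_
  · refine ⟨fun hadj => ?_, False.elim⟩
    have h1 : H.connectedComponentMk v = H.connectedComponentMk w :=
      SimpleGraph.ConnectedComponent.eq.2 hadj.reachable
    rw [h1] at hlt
    exact absurd hlt (@lt_irrefl _ r.toPreorder _)
  · exact (h c).subset fun w hw => hw.2

/-- A graph with a vertex joined to no or to all other vertices: remove this vertex. -/
theorem cls_insert {s : Set W} {v : W} {P : Prop} (hv : ∀ w ∈ s, w ≠ v → (H.Adj v w ↔ P))
    (h : Cls H (s \ {v})) : Cls H s := by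
  classical
  refine Cls.sum s (ULift.{u} (Fin 2)) inferInstance inferInstance
    (fun w => if w = v then ⟨0⟩ else ⟨1⟩) (fun _ => P) (fun a ha b hb hlt => ?_) fun x => ?_
  · by_cases ha' : a = v
    · by_cases hb' : b = v
      · rw [if_pos ha', if_pos hb'] at hlt
        exact absurd hlt (lt_irrefl _)
      · rw [ha']
        exact hv b hb hb'
    · by_cases hb' : b = v
      · rw [if_neg ha', if_pos hb'] at hlt
        exact absurd (show (1 : Fin 2) < 0 from hlt) (by decide)
      · rw [if_neg ha', if_neg hb'] at hlt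
        exact absurd hlt (lt_irrefl _)
  · by_cases hx : x = ⟨0⟩
    · refine Cls.fin _ ((Set.finite_singleton v).subset ?_)
      rintro w ⟨-, h1⟩
      by_contra h2
      have h2' : ¬ w = v := h2
      rw [if_neg h2', hx] at h1
      exact absurd (congrArg ULift.down h1) (show (1 : Fin 2) ≠ 0 by decide)
    · refine h.subset ?_
      rintro w ⟨hw, h1⟩
      refine ⟨hw, fun h2 => hx ?_⟩
      have h2' : w = v := h2
      rw [if_pos h2'] at h1
      exact h1.symm

/-- Graphs without edges. -/
theorem cls_bot : Cls (⊥ : SimpleGraph W) Set.univ := by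
  refine cls_of_components fun c => Cls.fin _ ?_
  induction c using SimpleGraph.ConnectedComponent.ind with
  | _ v =>
    refine (Set.finite_singleton v).subset fun w hw => ?_
    have h1 : (⊥ : SimpleGraph W).Reachable w v := SimpleGraph.ConnectedComponent.eq.1 hw
    rw [SimpleGraph.reachable_bot] at h1
    exact h1

/-- Complete graphs. -/
theorem cls_top : Cls (⊤ : SimpleGraph W) Set.univ := by
  have h := (cls_bot (W := W)).compl
  rwa [compl_bot] at h

/-- Every set without edges. -/
theorem cls_indep {s : Set W} (h : ∀ v ∈ s, ∀ w ∈ s, ¬ H.Adj v w) : Cls H s :=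
  ((cls_bot (W := W)).subset (Set.subset_univ s)).congr fun v hv w hw => by
    simp [h v hv w hw]

/-- Complete multipartite graphs: non-adjacency is transitive. -/
theorem cls_multipartite (h : ∀ u v w, ¬ H.Adj u v → ¬ H.Adj v w → ¬ H.Adj u w) :
    Cls H Set.univ := by
  have key : Cls Hᶜ Set.univ := by
    refine cls_of_components fun c => ?_
    have h1 : Cls H c.supp := by
      refine cls_indep ?_
      induction c using SimpleGraph.ConnectedComponent.ind with
      | _ x =>
        have h2 : ∀ v, Hᶜ.Reachable v x → ¬ H.Adj v x := by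
          rintro v ⟨p⟩
          induction p with
          | nil => exact H.loopless.irrefl _
          | cons hadj p ih => exact h _ _ _ (SimpleGraph.compl_adj _ _ _ |>.1 hadj).2 ih
        intro v hv w hw
        have hv' := h2 v (SimpleGraph.ConnectedComponent.eq.1 hv)
        have hw' := h2 w (SimpleGraph.ConnectedComponent.eq.1 hw)
        exact h _ _ _ hv' fun h3 => hw' h3.symm
    exact h1.compl
  have h1 := key.compl
  rwa [compl_compl] at h1

end Pool.Agent.RKQ
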