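import Pool.Agent.RKH.Core

/-!
The combinatorial core with labels: for every type C of colours and every ordinal o there is a set
La with levels and labels such that for every colouring D there are two colours for which the empty
list is o-good, where new elements are put on lower and lower levels and get larger and larger
labels.
-/

set_option autoImplicit false

open Cardinal Order

namespace Pool.Agent.RKQ

open Pool.Agent.RKH

universe u

section

variable {La C : Type u}

/-- c, e realize the pattern s over the list l with the colours cc. -/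
def Fits2 (rel : La → La → Prop) (D : La → Set La → La → C) (cc : Bool → C) (c : La)
    (e : Set La) (l : List La) (s : List Bool) : Prop :=
  List.Forall₂ (fun a b => rel c a ∧ (a ∈ e ↔ b = true) ∧ D c e a = cc b) l s

/-- goodness of lists -/
def LGood2 (rel : La → La → Prop) (D : La → Set La → La → C) (cc : Bool → C) (o : Ordinal.{u})
    (l : List La) : Prop :=
  ∀ (o' : Ordinal.{u}) (_ : o' < o) (s : List Bool), s.length = l.length →
    ∃ (c : La) (e : Set La), Fits2 rel D cc c e l s ∧ LGood2 rel D cc o' (c :: l)
termination_by o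
decreasing_by assumption

theorem lgood2_iff (rel : La → La → Prop) (D : La → Set La → La → C) (cc : Bool → C)
    (o : Ordinal.{u}) (l : List La) : LGood2 rel D cc o l ↔
      ∀ (o' : Ordinal.{u}) (_ : o' < o) (s : List Bool), s.length = l.length →
        ∃ (c : La) (e : Set La), Fits2 rel D cc c e l s ∧ LGood2 rel D cc o' (c :: l) := by
  rw [LGood2]

end

theorem core2 (C : Type u) (o : Ordinal.{u}) :
    ∃ (A : Type u) (_ : LinearOrder A) (_ : WellFoundedLT A) (B : Type u) (_ : LinearOrder B)
      (_ : WellFoundedLT B) (La : Type u) (lev : La → A) (lab : La → B),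
      ∀ D : La → Set La → La → C, ∃ cc : Bool → C,
        LGood2 (fun c a => lev c < lev a ∧ lab a < lab c) D cc o [] := by
  classical
  obtain ⟨B, iB1, iB2, hB⟩ := er_embed (Bool → C) (ULift.{u} ℕ)
  obtain ⟨A, iA1, iA2, hA⟩ := er_embed (B → B → Bool → C) (succ o).ToType
  let DD : Type u := Set ((Bool → C) × List Bool × o.ToType)
  refine ⟨A, iA1, iA2, B, iB1, iB2, Pos A B DD, levP A B DD, labP A B DD, ?_⟩
  intro D
  let rel : Pos A B DD → Pos A B DD → Prop := fun c a =>
    levP A B DD c < levP A B DD a ∧ labP A B DD a < labP A B DD c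
  -- the data
  let dd : List (Pos A B DD) → DD := fun l => {q | q.2.1.length = l.length ∧ ∃ c e,
    Fits2 rel D q.1 c e l q.2.1 ∧ LGood2 rel D q.1 q.2.2.toOrd.1 (c :: l)}
  obtain ⟨x, hx1, hx2, hx3⟩ := two_point A B DD dd
  let E : Set (Pos A B DD) := {y | ∃ al be, y = x be al true}
  have hE : ∀ be al t, x be al t ∈ E ↔ t = true := by
    intro be al t
    constructor
    · rintro ⟨al', be', h⟩
      have h1 : al = al' := by
        rw [← (hx1 be al t).1, ← (hx1 be' al' true).1, h]
      have h2 : be = be' := by
        rw [← (hx1 be al t).2, ← (hx1 be' al' true).2, h]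
      subst h1 h2
      cases t with
      | true => rfl
      | false => exact absurd h (hx2 be al)
    · rintro rfl
      exact ⟨al, be, rfl⟩
  -- Ramsey
  obtain ⟨ioA, kA, hioA, hkA⟩ := hA (fun al al' => fun be be' => fun t =>
    D (x be al false) E (x be' al' t))
  obtain ⟨ioB, cc, hioB, hcc⟩ := hB (fun be' be => kA be be')
  refine ⟨cc, ?_⟩
  let sA : Set.Iio (succ o) → A := fun si => ioA (Ordinal.ToType.mk si)
  have hsA : StrictMono sA := hioA.comp Ordinal.ToType.mk.strictMono
  let sB : ℕ → B := fun n => ioB ⟨n⟩
  have hsB : StrictMono sB := fun a b h => hioB (by simpa using h)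
  let gr : List (Set.Iio (succ o) × ℕ) → List (A × B) := fun tau =>
    tau.map (fun w => (sA w.1, sB w.2))
  have main : ∀ (si : Ordinal.{u}) (_ : si ≤ o) (tau : List (Set.Iio (succ o) × ℕ))
      (_ : tau.Pairwise (fun v w => v.1 < w.1 ∧ w.2 < v.2))
      (_ : ∀ w ∈ tau, si ≤ w.1.1) (t : List Bool) (_ : t.length = tau.length),
      LGood2 rel D cc si (trv x (gr tau) t) := by
    intro si
    induction si using WellFoundedLT.induction with
    | ind si ih =>
      intro hsi tau htau hmin t ht
      rw [lgood2_iff]
      intro si' hsi' s hs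
      have hlen : ∀ (tau : List (Set.Iio (succ o) × ℕ)) (t : List Bool)
          (_ : t.length = tau.length), (trv x (gr tau) t).length = tau.length := by
        intro tau t ht
        simp [trv, gr, ht]
      rw [hlen tau t ht] at hs
      have hsi'o : si' < o := lt_of_lt_of_le hsi' hsi
      let si0 : Set.Iio (succ o) := ⟨si', lt_succ_iff.mpr hsi'o.le⟩
      obtain ⟨n0, hn0⟩ : ∃ n0 : ℕ, ∀ w ∈ tau, w.2 < n0 := by
        refine ⟨(tau.map Prod.snd).sum + 1, ?_⟩
        intro w hw
        have : w.2 ≤ (tau.map Prod.snd).sum :=
          List.single_le_sum (by simp) _ (List.mem_map.mpr ⟨w, hw, rfl⟩)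
        omega
      have hch : ((si0, n0) :: tau).Pairwise (fun v w => v.1 < w.1 ∧ w.2 < v.2) := by
        rw [List.pairwise_cons]
        refine ⟨?_, htau⟩
        intro w hw
        refine ⟨?_, hn0 w hw⟩
        change si' < w.1.1
        exact lt_of_lt_of_le hsi' (hmin w hw)
      have hgood : LGood2 rel D cc si' (trv x (gr ((si0, n0) :: tau)) (false :: s)) := by
        refine ih si' hsi' hsi'o.le _ hch ?_ _ ?_
        · intro w hw
          rw [List.mem_cons] at hw
          rcases hw with rfl | hw
          · exact le_refl _
          · exact hsi'.le.trans (hmin w hw)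
        · simp [hs]
      have hfit : Fits2 rel D cc (x (sB n0) (sA si0) false) E (trv x (gr tau) s) s := by
        have aux : ∀ (tau : List (Set.Iio (succ o) × ℕ)) (s : List Bool)
            (_ : s.length = tau.length) (_ : ∀ w ∈ tau, si0 < w.1 ∧ w.2 < n0),
            Fits2 rel D cc (x (sB n0) (sA si0) false) E (trv x (gr tau) s) s := by
          intro tau
          induction tau with
          | nil =>
            intro s hs _
            have : s = [] := List.length_eq_zero_iff.mp hs
            subst this
            exact List.Forall₂.nil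
          | cons w tau ih2 =>
            intro s hs hw
            cases s with
            | nil => simp at hs
            | cons b s =>
              have hw1 := hw w (by simp)
              refine List.Forall₂.cons ⟨?_, ?_, ?_⟩ (ih2 s (by simpa using hs)
                (fun v hv => hw v (by simp [hv])))
              · constructor
                · rw [(hx1 _ _ _).1, (hx1 _ _ _).1]
                  exact hsA hw1.1
                · rw [(hx1 _ _ _).2, (hx1 _ _ _).2]
                  exact hsB hw1.2
              · exact hE _ _ _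
              · have h1 : (fun be be' => fun t =>
                    D (x be (sA si0) false) E (x be' (sA w.1) t)) = kA :=
                  hkA (Ordinal.ToType.mk si0) (Ordinal.ToType.mk w.1)
                    (Ordinal.ToType.mk.strictMono hw1.1)
                have h2 : kA (sB n0) (sB w.2) = cc :=
                  hcc ⟨w.2⟩ ⟨n0⟩ (by simpa using hw1.2)
                have h3 := congrFun (congrFun (congrFun h1 (sB n0)) (sB w.2)) b
                rw [h2] at h3
                exact h3
        exact aux tau s hs (fun w hw => (List.pairwise_cons.mp hch).1 w hw)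
      -- transfer
      have hgr : Chn (gr tau) := by
        unfold Chn
        rw [List.pairwise_map]
        exact htau.imp (fun h => ⟨hsA h.1, hsB h.2⟩)
      have hhom := trv_homog x (levP A B DD) dd (fun be al t => (hx1 be al t).1) hx3 (gr tau)
        hgr [] (by simp) s t (by simp [gr, hs]) (by simp [gr, ht])
      rw [List.nil_append, List.nil_append] at hhom
      have hmem : (cc, s, Ordinal.ToType.mk (⟨si', hsi'o⟩ : Set.Iio o)) ∈
          dd (trv x (gr tau) s) := by
        refine ⟨?_, x (sB n0) (sA si0) false, E, hfit, ?_⟩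
        · rw [hlen tau s hs]
          exact hs
        · have e3 : (Ordinal.ToType.mk (⟨si', hsi'o⟩ : Set.Iio o)).toOrd.1 = si' := by simp
          rw [e3]
          exact hgood
      rw [hhom] at hmem
      obtain ⟨-, c, e, h1, h2⟩ := hmem
      refine ⟨c, e, h1, ?_⟩
      simpa using h2
  have h := main o le_rfl [] List.Pairwise.nil (by simp) [] rfl
  exact h

private theorem unroll2 {La C : Type u} (rel : La → La → Prop) (D : La → Set La → La → C)
    (cc : Bool → C) (n : ℕ) :
    ∀ (l : List La) (_ : LGood2 rel D cc (n : Ordinal.{u}) l) (K : Fin n → Fin n → Bool)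
      (S : Fin n → List Bool) (_ : ∀ p, (S p).length = l.length),
      ∃ (a : Fin n → La) (M : Fin n → Set La), (∀ p, Fits2 rel D cc (a p) (M p) l (S p)) ∧
        ∀ p q, p < q → rel (a p) (a q) ∧ (a q ∈ M p ↔ K p q = true) ∧
          D (a p) (M p) (a q) = cc (K p q) := by
  induction n with
  | zero =>
    intro l _ K S _
    exact ⟨fun p => p.elim0, fun p => p.elim0, fun p => p.elim0, fun p => p.elim0⟩
  | succ n ih =>
    intro l hl K S hS
    rw [lgood2_iff] at hl
    obtain ⟨c, e, hce, hl'⟩ := hl (n : Ordinal.{u}) (by
      rw [Nat.cast_lt]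
      exact Nat.lt_succ_self n) (S (Fin.last n)) (hS _)
    obtain ⟨a, M, h1, h2⟩ := ih (c :: l) hl' (fun p q => K p.castSucc q.castSucc)
      (fun p => K p.castSucc (Fin.last n) :: S p.castSucc) (fun p => by
        rw [List.length_cons, List.length_cons, hS])
    refine ⟨Fin.snoc (α := fun _ => La) a c, Fin.snoc (α := fun _ => Set La) M e, ?_, ?_⟩
    · intro p
      refine Fin.lastCases ?_ (fun p => ?_) p
      · rw [Fin.snoc_last, Fin.snoc_last]
        exact hce
      · rw [Fin.snoc_castSucc, Fin.snoc_castSucc]
        exact (List.forall₂_cons.1 (h1 p)).2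
    · intro p q
      refine Fin.lastCases (fun hp => ?_) (fun q => ?_) q
      · obtain ⟨p, rfl⟩ := Fin.exists_castSucc_eq.2 hp.ne
        rw [Fin.snoc_last, Fin.snoc_castSucc, Fin.snoc_castSucc]
        exact (List.forall₂_cons.1 (h1 p)).1
      · intro hp
        have hp' : p ≠ Fin.last n := (hp.trans (Fin.castSucc_lt_last q)).ne
        obtain ⟨p, rfl⟩ := Fin.exists_castSucc_eq.2 hp'
        rw [Fin.snoc_castSucc, Fin.snoc_castSucc, Fin.snoc_castSucc]
        exact h2 p q (Fin.castSucc_lt_castSucc_iff.1 hp)

theorem LGood2.mono {La C : Type u} {rel : La → La → Prop} {D : La → Set La → La → C}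
    {cc : Bool → C} {o o' : Ordinal.{u}} {l : List La} (h : LGood2 rel D cc o l) (ho : o' ≤ o) :
    LGood2 rel D cc o' l := by
  rw [lgood2_iff] at h ⊢
  exact fun o'' h'' s hs => h o'' (h''.trans_le ho) s hs

/-- Finite patterns over a good list. -/
theorem LGood2.pattern {La C : Type u} {rel : La → La → Prop} {D : La → Set La → La → C}
    {cc : Bool → C} {o : Ordinal.{u}} {l : List La} (h : LGood2 rel D cc o l) {n : ℕ}
    (hn : (n : Ordinal.{u}) ≤ o) (K : Fin n → Fin n → Bool) (S : Fin n → List Bool)
    (hS : ∀ p, (S p).length = l.length) :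
    ∃ (a : Fin n → La) (M : Fin n → Set La), (∀ p, Fits2 rel D cc (a p) (M p) l (S p)) ∧
      ∀ p q, p < q → rel (a p) (a q) ∧ (a q ∈ M p ↔ K p q = true) ∧
        D (a p) (M p) (a q) = cc (K p q) :=
  unroll2 rel D cc n l (h.mono hn) K S hS

end Pool.Agent.RKQ
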