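import Pool.Agent.RKP.Ram

/-!
End homogeneity for all finite sequences at once.
-/

set_option autoImplicit false

open Cardinal Order

namespace Pool.Agent.RKQ

open Pool.Agent.RKH Pool.Agent.RKP

universe u

theorem end_homog_list {R X K : Type u} [LinearOrder X] (hR : ℵ₀ ≤ #R)
    (hK : #K ≤ 2 ^ #R) (hb : ∀ S : Set X, #S ≤ 2 ^ #R → ∃ z, ∀ s ∈ S, s < z)
    (Q : List X → X → K) :
    ∃ (z : X) (x : (succ #R).ord.ToType → X), StrictMono x ∧
      ∀ (zs : List (succ #R).ord.ToType) (eta : (succ #R).ord.ToType),
        (∀ r ∈ zs, r < eta) → Q (zs.map x) (x eta) = Q (zs.map x) z := by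
  classical
  obtain ⟨x0, -⟩ := hb ∅ (by simp)
  have hinf : Infinite R := Cardinal.infinite_iff.2 hR
  have hT : #(List R → K) ≤ 2 ^ #R := by
    calc #(List R → K) = #K ^ #(List R) := by simp
      _ ≤ (2 ^ #R) ^ #(List R) := power_le_power_right hK
      _ = 2 ^ (#R * #(List R)) := by rw [← power_mul]
      _ ≤ 2 ^ #R := by
        refine power_le_power_left two_ne_zero ?_
        exact mul_le_of_le hR le_rfl (mk_list_eq_mk R).le
  obtain ⟨C, hC, hx0, hcl⟩ := exists_closed_T (R := R) x0 hR hT
    (fun sg x => fun u : List R => Q (u.map sg) x)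
  obtain ⟨z, hz⟩ := hb C hC
  have hrec := exists_rec (Th := (succ #R).ord.ToType) (C := C) (· < ·) wellFounded_lt
    (fun xi g c => (∀ eta (h : eta < xi), ((g eta h : C) : X) < c) ∧
      ∀ l : List (Set.Iio xi),
        Q (l.map fun r => (g r.1 r.2 : X)) c = Q (l.map fun r => (g r.1 r.2 : X)) z) ?_
  · obtain ⟨x, hx⟩ := hrec
    refine ⟨z, fun xi => x xi, ?_, ?_⟩
    · intro a b hab
      exact (hx b).1 a hab
    · intro zs eta h
      have h1 := (hx eta).2 (zs.attach.map fun r => ⟨r.1, h r.1 r.2⟩)
      have h2 : ((zs.attach.map fun r => (⟨r.1, h r.1 r.2⟩ : Set.Iio eta)).map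
          fun r => (x r.1 : X)) = zs.map fun xi => (x xi : X) := by
        rw [List.map_map]
        conv_rhs => rw [← List.attach_map_subtype_val zs]
        rw [List.map_map]
        rfl
      rw [h2] at h1
      exact h1
  · intro xi g
    by_cases hne : Nonempty (Set.Iio xi)
    · have hle : #(Set.Iio xi) ≤ #R := mk_Iio_le _ xi
      obtain ⟨emb⟩ := (Cardinal.le_def _ _).mp hle
      have hsurj : Function.Surjective (Function.invFun emb) :=
        Function.invFun_surjective emb.injective
      let s : R → Set.Iio xi := Function.invFun emb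
      obtain ⟨x, hxC, hx1, hx2⟩ := hcl (fun r => (g (s r).1 (s r).2 : C)) z
        (fun r => (g (s r).1 (s r).2).2) (fun r => hz _ (g (s r).1 (s r).2).2)
      refine ⟨⟨x, hxC⟩, ?_, ?_⟩
      · intro eta h
        obtain ⟨r, hr⟩ := hsurj ⟨eta, h⟩
        have hr1 : s r = ⟨eta, h⟩ := hr
        have := hx1 r
        simp only [hr1] at this
        exact this
      · intro l
        choose w hw using hsurj
        have hw1 : ∀ r, s (w r) = r := hw
        have h3 := congrFun hx2 (l.map w)
        simp only [List.map_map] at h3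
        have h4 : (l.map ((fun r => ((g (s r).1 (s r).2 : C) : X)) ∘ w)) =
            l.map fun r => ((g r.1 r.2 : C) : X) := by
          refine List.map_congr_left fun r _ => ?_
          simp only [Function.comp_apply, hw1]
        rw [h4] at h3
        exact h3
    · obtain ⟨x, hxC, hx1, hx2⟩ := hcl (fun _ => x0) z (fun _ => hx0) (fun _ => hz _ hx0)
      refine ⟨⟨x, hxC⟩, ?_, ?_⟩
      · intro eta h
        exact absurd ⟨⟨eta, h⟩⟩ hne
      · intro l
        have hl : l = [] := by
          cases l with
          | nil => rfl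
          | cons a l => exact absurd ⟨a⟩ hne
        subst hl
        exact congrFun hx2 []

end Pool.Agent.RKQ
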