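import Pool.Agent.RKQ.State
import Pool.Agent.RKQ.ListHom
import Pool.Agent.RKQ.Core2
import Pool.Agent.RKP.SysN

/-!
The homogeneous system for the class of iterated well ordered sums of finite graphs.
-/

set_option autoImplicit false

open Cardinal Order

namespace Pool.Agent.RKQ

open Pool.Agent.RKH Pool.Agent.RKP

universe u

private theorem homQ_fun {M Z Y : Type u} (hM : ℵ₀ ≤ #M) (hZ : #Z ≤ #M) (hY : #Y ≤ 2 ^ #M) :
    #(Z → Y) ≤ 2 ^ #M := by
  calc #(Z → Y) = #Y ^ #Z := by simp
    _ ≤ (2 ^ #M) ^ #Z := power_le_power_right hY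
    _ = 2 ^ (#M * #Z) := by rw [← power_mul]
    _ ≤ 2 ^ #M := power_le_power_left two_ne_zero (mul_le_of_le hM le_rfl hZ)

private theorem homQ_mul {M X Y : Type u} (hM : ℵ₀ ≤ #M) (hX : #X ≤ 2 ^ #M) (hY : #Y ≤ 2 ^ #M) :
    #(X × Y) ≤ 2 ^ #M := by
  rw [mk_prod, lift_id, lift_id]
  exact mul_le_of_le (hM.trans (cantor _).le) hX hY

private theorem homQ_list {M X : Type u} (hM : ℵ₀ ≤ #M) (hX : #X ≤ 2 ^ #M) :
    #(List X) ≤ 2 ^ #M :=
  (mk_list_le_max X).trans (max_le (hM.trans (cantor _).le) hX)

private theorem homQ_sta {M W V : Type u} (N : Set V) (hM : ℵ₀ ≤ #M) (hW : #W ≤ #M)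
    (hN : #N ≤ 2 ^ #M) : #(Sta W N) ≤ 2 ^ #M := by
  refine homQ_mul hM ?_ (homQ_list hM (homQ_mul hM (homQ_fun hM hW ?_) ?_))
  · rw [mk_set]
    exact power_le_power_left two_ne_zero hW
  · rw [mk_option]
    exact add_le_of_le (hM.trans (cantor _).le) hN (one_le_aleph0.trans (hM.trans (cantor _).le))
  · have h1 : #(W → Bool) = 2 ^ #W := by simp
    rw [h1]
    exact power_le_power_left two_ne_zero hW

private theorem homQ_imp {α β : Type*} {R R' : α → β → Prop} {l : List α} {u : List β}
    (h : List.Forall₂ R l u) (hR : ∀ a b, b ∈ u → R a b → R' a b) : List.Forall₂ R' l u := by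
  induction h with
  | nil => exact List.Forall₂.nil
  | cons h1 h2 ih =>
    refine List.Forall₂.cons (hR _ _ (by simp) h1) (ih fun a b hb h3 => hR a b ?_ h3)
    exact List.mem_cons_of_mem _ hb

private theorem homQ_left {α β : Type*} {R : α → β → Prop} {l : List α} {u : List β}
    (h : List.Forall₂ R l u) : ∀ a ∈ l, ∃ b, R a b := by
  induction h with
  | nil => intro a ha; simp at ha
  | cons h1 h2 ih =>
    intro a ha
    rw [List.mem_cons] at ha
    rcases ha with rfl | ha
    · exact ⟨_, h1⟩
    · exact ih a ha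

theorem exists_homQ (C K0 : Type u) : ∃ M0 : Type u, ∀ M : Type u, ℵ₀ ≤ #M → #C ≤ #M →
    #M0 ≤ #M → ∀ (V : Type u) (D : V → V → Option (Bool × C)) (N : Set V)
      (y : (succ ((2 : Cardinal.{u}) ^ #M)).ord.ToType → V), (∀ v w, D v w = D w v) →
      #N ≤ 2 ^ #M → SysP M D N y →
      ∃ cc : Bool → C, ∀ (H : SimpleGraph K0) (S : Set K0), Cls H S →
        Real D cc H N S (fun _ _ => True) := by
  classical
  let ρm : Ordinal.{u} := ⨆ p : SimpleGraph K0 × Set K0, succ (rkk p.1 p.2)
  obtain ⟨A, iA1, iA2, B, iB1, iB2, La, lev, lab, hcore⟩ := core2 C (Ordinal.omega0 * ρm)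
  obtain ⟨iL1, iL2⟩ := exists_wellFoundedLT (α := La)
  refine ⟨(B ×ₗ La) ⊕ (Set La ⊕ ((Bool → C) ⊕ K0)), fun M hM hC hM0 V D N y hD hN hsys => ?_⟩
  have hXM : #(B ×ₗ La) ≤ #M := (mk_le_of_injective (f := Sum.inl) Sum.inl_injective).trans hM0
  have hSLM : #(Set La) ≤ #M := (mk_le_of_injective (f := fun z => Sum.inr (Sum.inl z))
    (Sum.inr_injective.comp Sum.inl_injective)).trans hM0
  have hccM : #(Bool → C) ≤ #M := (mk_le_of_injective
    (f := fun z => Sum.inr (Sum.inr (Sum.inl z)))
    (Sum.inr_injective.comp (Sum.inr_injective.comp Sum.inl_injective))).trans hM0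
  have hKM : #K0 ≤ #M := (mk_le_of_injective
    (f := fun z => Sum.inr (Sum.inr (Sum.inr z)))
    (Sum.inr_injective.comp (Sum.inr_injective.comp Sum.inr_injective))).trans hM0
  have hLM : #La ≤ #M := by
    refine le_trans ?_ hSLM
    rw [mk_set]
    exact (cantor _).le
  have hP : ℵ₀ ≤ (2 : Cardinal.{u}) ^ #M := hM.trans (cantor _).le
  by_contra hcon
  have hcon' : ∀ cc : Bool → C, ∃ (H : SimpleGraph K0) (S : Set K0), Cls H S ∧
      ¬ Real D cc H N S (fun _ _ => True) := by
    intro cc
    by_contra h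
    exact hcon ⟨cc, fun H S hHS => by_contra fun h4 => h ⟨H, S, hHS, h4⟩⟩
  choose H S hcls hbad using hcon'
  obtain ⟨v0, hv0⟩ : ∃ v0 : V, v0 ∈ N := by
    obtain ⟨z0, -⟩ := bdd_of_small hP (∅ : Set (succ ((2 : Cardinal.{u}) ^ #M)).ord.ToType)
      (by simp)
    obtain ⟨w, hw, -⟩ := hsys z0 ∅ (Set.empty_subset _) (by simp) ∅ (by simp) ∅
    exact ⟨w, hw⟩
  -- end homogeneity
  have hK : #((Bool → C) → Sta K0 N) ≤ 2 ^ #M := homQ_fun hM hccM (homQ_sta N hM hKM hN)
  obtain ⟨z, x, hx, hxz⟩ := end_homog_list (R := M) (K := (Bool → C) → Sta K0 N) hM hK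
    (fun S hS => bdd_of_small hP S hS) (fun zs s cc => St D cc N y (H cc) (S cc) (s :: zs))
  -- the embedding
  have hemb : Nonempty ((B ×ₗ La) ≤i (succ #M).ord.ToType) := by
    rcases InitialSeg.total (· < · : (B ×ₗ La) → (B ×ₗ La) → Prop)
      (· < · : (succ #M).ord.ToType → (succ #M).ord.ToType → Prop) with h | h
    · exact ⟨h⟩
    · exfalso
      have h1 : #((succ #M).ord.ToType) ≤ #(B ×ₗ La) := mk_le_of_injective h.injective
      have h2 : #((succ #M).ord.ToType) = succ #M := by simp
      rw [h2] at h1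
      exact absurd (h1.trans hXM) (not_le.mpr (lt_succ _))
  obtain ⟨em⟩ := hemb
  let g : La → B ×ₗ La := fun a => toLex (lab a, a)
  have hg : Function.Injective g := fun a b h => (Prod.mk.inj (toLex.injective h)).2
  have hglt : ∀ a b, lab a < lab b → g a < g b := fun a b h =>
    Prod.Lex.toLex_lt_toLex.2 (Or.inl h)
  let e : La → (succ ((2 : Cardinal.{u}) ^ #M)).ord.ToType := fun a => x (em (g a))
  have he : Function.Injective e := fun a b h => hg (em.injective (hx.injective h))
  have hhom : ∀ (cc : Bool → C) (l : List La) (c : La), (∀ a ∈ l, lab a < lab c) →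
      St D cc N y (H cc) (S cc) (e c :: l.map e) =
        St D cc N y (H cc) (S cc) (z :: l.map e) := by
    intro cc l c h
    have h1 := hxz (l.map fun a => em (g a)) (em (g c)) (by
      intro r hr
      obtain ⟨a, ha, rfl⟩ := List.mem_map.1 hr
      exact em.strictMono (hglt a c (h a ha)))
    have h2 := congrFun h1 cc
    simp only [List.map_map] at h2
    exact h2
  -- the vertices
  let Fix : Set V := Set.range (fun q : ((Bool → C) × List La) × (ULift.{u} ℕ × K0) =>
    (((St D q.1.1 N y (H q.1.1) (S q.1.1) (q.1.2.map e)).2[q.2.1.down]?).bind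
      (fun p => p.1 q.2.2)).elim v0 (fun a : N => (a : V)))
  have hFixN : Fix ⊆ N := by
    rintro _ ⟨q, rfl⟩
    dsimp only
    cases (((St D q.1.1 N y (H q.1.1) (S q.1.1) (q.1.2.map e)).2[q.2.1.down]?).bind
      (fun p => p.1 q.2.2)) with
    | none => exact hv0
    | some a => exact a.2
  have hFixM : #Fix ≤ #M := by
    refine mk_range_le.trans ?_
    rw [mk_prod, lift_id, lift_id, mk_prod, lift_id, lift_id, mk_prod, lift_id, lift_id]
    refine mul_le_of_le hM (mul_le_of_le hM hccM ((mk_list_le_max La).trans (max_le hM hLM)))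
      (mul_le_of_le hM ?_ hKM)
    simpa using hM
  have hFix : ∀ (cc : Bool → C) (l : List La), ∀ p ∈ (St D cc N y (H cc) (S cc) (l.map e)).2,
      ∀ (w : K0) (a : N), p.1 w = some a → (a : V) ∈ Fix := by
    intro cc l p hp w a ha
    obtain ⟨n, hn⟩ := List.mem_iff_getElem?.1 hp
    refine ⟨((cc, l), (⟨n⟩, w)), ?_⟩
    dsimp only
    rw [hn, Option.bind_some, ha]
    rfl
  obtain ⟨v, hv⟩ := exists_rec (Th := La) (C := Set La → N) (fun a b => lev a < lev b)
    (InvImage.wf lev wellFounded_lt)
    (fun i gg c => ∀ M', (∀ i' (h : lev i' < lev i) M'', D (gg i' h M'') (c M') =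
        D (gg i' h M'') (y (e i))) ∧ (∀ f ∈ Fix, D f (c M') = D f (y (e i))) ∧
      ∀ s : La, ∃ cl : C, D (c M') (y (e s)) = some (decide (s ∈ M'), cl)) (by
    intro i gg
    have h1 : ∀ M' : Set La, ∃ w : N, (∀ i' (h : lev i' < lev i) M'', D (gg i' h M'') w =
        D (gg i' h M'') (y (e i))) ∧ (∀ f ∈ Fix, D f w = D f (y (e i))) ∧
        ∀ s : La, ∃ cl : C, D w (y (e s)) = some (decide (s ∈ M'), cl) := by
      intro M'
      obtain ⟨w, hwN, hw1, hw2⟩ := hsys (e i)
        (Set.range (fun p : {i' // lev i' < lev i} × Set La => (gg p.1.1 p.1.2 p.2 : V)) ∪ Fix)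
        (by
          rintro a (⟨p, rfl⟩ | ha)
          · exact Subtype.coe_prop _
          · exact hFixN ha) (by
          refine (mk_union_le _ _).trans (add_le_of_le hM (mk_range_le.trans ?_) hFixM)
          rw [mk_prod, lift_id, lift_id]
          exact mul_le_of_le hM ((mk_subtype_le _).trans hLM) hSLM)
        (Set.range e) (mk_range_le.trans hLM) (e '' M')
      refine ⟨⟨w, hwN⟩, ?_, ?_, ?_⟩
      · intro i' h M''
        exact hw1 _ (Or.inl ⟨(⟨i', h⟩, M''), rfl⟩)
      · intro f hf
        exact hw1 _ (Or.inr hf)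
      · intro s
        obtain ⟨cl, hcl⟩ := hw2 (e s) ⟨s, rfl⟩
        refine ⟨cl, ?_⟩
        have h3 : decide (s ∈ M') = decide (e s ∈ e '' M') :=
          decide_eq_decide.2 he.mem_set_image.symm
        rw [h3]
        exact hcl
    choose w hw using h1
    exact ⟨w, hw⟩)
  choose c0 hc0 using fun i M' => (hv i M').2.2
  obtain ⟨cc, hc⟩ := hcore c0
  have main : ∀ (ρ : Ordinal.{u}) (l : List La),
      LGood2 (fun c a => lev c < lev a ∧ lab a < lab c) c0 cc (Ordinal.omega0 * succ ρ) l →
      rkk (H cc) (St D cc N y (H cc) (S cc) (l.map e)).1 ≤ ρ →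
      BadS D cc N y (H cc) (l.map e) (St D cc N y (H cc) (S cc) (l.map e)) →
      (St D cc N y (H cc) (S cc) (l.map e)).2.length = l.length →
      (∀ a : La, (∀ b ∈ l, lab b < lab a) →
        ∀ p ∈ (St D cc N y (H cc) (S cc) (l.map e)).2, EFit D cc N p (y (e a))) → False := by
    intro ρ
    induction ρ using WellFoundedLT.induction with
    | ind ρ ih =>
      intro l hl hrk hB hlen hfit
      by_cases hfin : (St D cc N y (H cc) (S cc) (l.map e)).1.Finite
      · -- a finite block
        have hfi : Finite (St D cc N y (H cc) (S cc) (l.map e)).1 := hfin.to_subtype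
        let ee := Finite.equivFin (St D cc N y (H cc) (S cc) (l.map e)).1
        obtain ⟨a, Mm, h1, h2⟩ := hl.pattern
          (n := Nat.card (St D cc N y (H cc) (S cc) (l.map e)).1) (by
            refine (Ordinal.natCast_lt_omega0 _).le.trans ?_
            exact Ordinal.le_mul_left _ (lt_of_le_of_lt (bot_le (a := ρ)) (lt_succ ρ)))
          (fun p q => decide ((H cc).Adj (ee.symm p) (ee.symm q)))
          (fun p => (St D cc N y (H cc) (S cc) (l.map e)).2.map (fun pe => pe.2 (ee.symm p)))
          (fun p => by rw [List.length_map, hlen])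
        have hab : ∀ p, ∀ b ∈ l, lab b < lab (a p) := by
          intro p b hb
          obtain ⟨b', hb'⟩ := homQ_left (h1 p) b hb
          exact hb'.1.2
        have k1 : ∀ p q, p < q → D (v (a p) (Mm p)) (v (a q) (Mm q)) =
            some (decide ((H cc).Adj (ee.symm p) (ee.symm q)),
              cc (decide ((H cc).Adj (ee.symm p) (ee.symm q)))) := by
          intro p q hpq
          obtain ⟨h3, h4, h5⟩ := h2 p q hpq
          rw [(hv (a q) (Mm q)).1 (a p) h3.1 (Mm p), hc0 (a p) (Mm p) (a q), h5]
          have h6 : decide (a q ∈ Mm p) = decide ((H cc).Adj (ee.symm p) (ee.symm q)) := by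
            by_cases h7 : a q ∈ Mm p
            · rw [h4.1 h7]
              exact decide_eq_true h7
            · have h8 : ¬ (decide ((H cc).Adj (ee.symm p) (ee.symm q)) = true) :=
                fun h => h7 (h4.2 h)
              rw [Bool.not_eq_true] at h8
              rw [h8]
              exact decide_eq_false h7
          rw [h6]
        have k2 : ∀ p, PzP D cc N y (l.map e) (St D cc N y (H cc) (S cc) (l.map e)).2
            (ee.symm p) (v (a p) (Mm p)) := by
          intro p
          have h3 := h1 p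
          rw [Fits2, List.forall₂_map_right_iff] at h3
          rw [PzP, List.forall₂_map_left_iff]
          refine homQ_imp h3 fun a' pe hpe h4 => ⟨?_, ?_⟩
          · obtain ⟨h5, h6, h7⟩ := h4
            rw [hc0 (a p) (Mm p) a', h7]
            have h8 : decide (a' ∈ Mm p) = pe.2 (ee.symm p) := by
              by_cases h9 : a' ∈ Mm p
              · rw [h6.1 h9]
                exact decide_eq_true h9
              · have h10 : ¬ (pe.2 (ee.symm p) = true) := fun h => h9 (h6.2 h)
                rw [Bool.not_eq_true] at h10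
                rw [h10]
                exact decide_eq_false h9
            rw [h8]
          · intro w b hb
            rw [(hv (a p) (Mm p)).2.1 _ (hFix cc l pe hpe w b hb)]
            exact hfit (a p) (hab p) pe hpe w b hb
        refine hB.2 ⟨fun w => if h : w ∈ (St D cc N y (H cc) (S cc) (l.map e)).1 then
          v (a (ee ⟨w, h⟩)) (Mm (ee ⟨w, h⟩)) else ⟨v0, hv0⟩, ?_, ?_⟩
        · intro w hw
          dsimp only
          rw [dif_pos hw]
          have h3 := k2 (ee ⟨w, hw⟩)
          rw [Equiv.symm_apply_apply] at h3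
          exact h3
        · intro w hw w' hw' hne
          dsimp only
          rw [dif_pos hw, dif_pos hw']
          rcases lt_trichotomy (ee ⟨w, hw⟩) (ee ⟨w', hw'⟩) with h3 | h3 | h3
          · have h4 := k1 _ _ h3
            rw [Equiv.symm_apply_apply, Equiv.symm_apply_apply] at h4
            exact h4
          · exact absurd (congrArg Subtype.val (ee.injective h3)) hne
          · have h4 := k1 _ _ h3
            rw [Equiv.symm_apply_apply, Equiv.symm_apply_apply] at h4
            rw [hD, h4]
            have h5 : decide ((H cc).Adj w' w) = decide ((H cc).Adj w w') :=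
              decide_eq_decide.2 ((H cc).adj_comm w' w)
            rw [h5]
      · -- an infinite block
        obtain ⟨-, -, -, -, hp4⟩ := st_cons D cc N y (H cc) (S cc) ⟨v0, hv0⟩ hD (l.map e) hB
          hfin z
        have hρ := hp4.trans_le hrk
        rw [lgood2_iff] at hl
        obtain ⟨c, ec, hf2, hl'⟩ := hl
          (Ordinal.omega0 * succ (rkk (H cc) (St D cc N y (H cc) (S cc) (z :: l.map e)).1))
          (by
            refine (mul_lt_mul_iff_right₀ Ordinal.omega0_pos).2 ?_
            exact succ_lt_succ hρ) (List.replicate l.length false) (by simp)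
        have hab : ∀ a ∈ l, lab a < lab c := by
          intro a ha
          obtain ⟨b', hb'⟩ := homQ_left hf2 a ha
          exact hb'.1.2
        have hs := hhom cc l c hab
        obtain ⟨p', hq1, hq2, hq3, hq4⟩ := st_cons D cc N y (H cc) (S cc) ⟨v0, hv0⟩ hD
          (l.map e) hB hfin (e c)
        refine ih _ hρ (c :: l) hl' ?_ ?_ ?_ ?_
        · rw [List.map_cons, hs]
        · rw [List.map_cons]
          exact hq3
        · rw [List.map_cons, hq1, List.length_cons, hlen, List.length_cons]
        · intro a ha p'' hp''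
          have ha' : ∀ b ∈ l, lab b < lab a := fun b hb => ha b (List.mem_cons_of_mem _ hb)
          rw [List.map_cons, hq1, List.mem_cons] at hp''
          rcases hp'' with rfl | hp''
          · obtain ⟨p3, h31, h32, -⟩ := st_cons D cc N y (H cc) (S cc) ⟨v0, hv0⟩ hD
              (l.map e) hB hfin (e a)
            rw [hhom cc l a ha', ← hs, hq1] at h31
            rw [(List.cons.inj h31).1]
            exact h32
          · exact hfit a ha' p'' hp''
  refine main (rkk (H cc) (S cc)) [] ?_ ?_ ?_ ?_ ?_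
  · refine hc.mono ?_
    refine mul_le_mul_right ?_ _
    exact Ordinal.le_iSup (fun p : SimpleGraph K0 × Set K0 => succ (rkk p.1 p.2)) (H cc, S cc)
  · exact le_rfl
  · refine ⟨hcls cc, fun h => hbad cc ?_⟩
    obtain ⟨E, -, hE⟩ := h
    exact ⟨E, fun _ _ => trivial, hE⟩
  · rfl
  · intro a _ p hp
    exact absurd hp (by simp [St])

end Pool.Agent.RKQ
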