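import Pool.Agent.RKQ.HomQ
import Pool.Agent.RKC.Defs

/-!
The theorem on iterated well ordered sums of finite graphs.
-/

set_option autoImplicit false

open Cardinal Order

namespace Pool.Agent.RKQ

open Pool.Agent.RKC Pool.Agent.RKP

universe u

open Classical in
/-- the relation and the colour of a pair of vertices -/
private noncomputable def DdE {V C : Type u} (G : SimpleGraph V) (f : G.edgeSet → C)
    (g : Gᶜ.edgeSet → C) (e : Sym2 V) : Option (Bool × C) :=
  if h : e ∈ G.edgeSet then some (true, f ⟨e, h⟩)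
  else if h : e ∈ Gᶜ.edgeSet then some (false, g ⟨e, h⟩) else none

/-- the relation and the colour of a pair of vertices -/
private noncomputable def DdQ {V C : Type u} (G : SimpleGraph V) (f : G.edgeSet → C)
    (g : Gᶜ.edgeSet → C) (x y : V) : Option (Bool × C) := DdE G f g s(x, y)

private theorem DdQ_symm {V C : Type u} (G : SimpleGraph V) (f : G.edgeSet → C)
    (g : Gᶜ.edgeSet → C) (x y : V) : DdQ G f g x y = DdQ G f g y x := by
  rw [DdQ, DdQ, Sym2.eq_swap]

private theorem DdQ_spec {V C : Type u} (G : SimpleGraph V) (f : G.edgeSet → C)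
    (g : Gᶜ.edgeSet → C) (x y : V) (hxy : x ≠ y) :
    ∃ (b : Bool) (c : C), DdQ G f g x y = some (b, c) ∧ (b = true ↔ G.Adj x y) := by
  classical
  by_cases h : s(x, y) ∈ G.edgeSet
  · refine ⟨true, f ⟨s(x, y), h⟩, by rw [DdQ, DdE, dif_pos h], ?_⟩
    simpa using (SimpleGraph.mem_edgeSet G).1 h
  · have h' : s(x, y) ∈ Gᶜ.edgeSet := by
      rw [SimpleGraph.mem_edgeSet, SimpleGraph.compl_adj]
      exact ⟨hxy, fun h1 => h ((SimpleGraph.mem_edgeSet G).2 h1)⟩
    refine ⟨false, g ⟨s(x, y), h'⟩, by rw [DdQ, DdE, dif_neg h, dif_pos h'], ?_⟩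
    simpa using fun h1 => h ((SimpleGraph.mem_edgeSet G).2 h1)

private theorem DdQ_type {V C : Type u} {G : SimpleGraph V} {f : G.edgeSet → C}
    {g : Gᶜ.edgeSet → C} {x y : V} {b : Bool} {cc : Bool → C}
    (h : DdQ G f g x y = some (b, cc b)) : HasType G f g (cc true) (cc false) (b = true) x y := by
  classical
  by_cases h1 : s(x, y) ∈ G.edgeSet
  · rw [DdQ, DdE, dif_pos h1, Option.some.injEq, Prod.mk.injEq] at h
    obtain ⟨rfl, h2⟩ := h
    exact ⟨fun _ => ⟨h1, h2⟩, fun h3 => absurd rfl h3⟩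
  · by_cases h2 : s(x, y) ∈ Gᶜ.edgeSet
    · rw [DdQ, DdE, dif_neg h1, dif_pos h2, Option.some.injEq, Prod.mk.injEq] at h
      obtain ⟨rfl, h3⟩ := h
      exact ⟨fun h4 => absurd h4 (by simp), fun _ => ⟨h2, h3⟩⟩
    · rw [DdQ, DdE, dif_neg h1, dif_neg h2] at h
      exact absurd h (by simp)

/-- the class is invariant under embeddings -/
theorem Cls.map {W K : Type u} (i : W ↪ K) (H : SimpleGraph W) {s : Set W} (h : Cls H s) :
    Cls (H.map i) (i '' s) := by
  classical
  induction h with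
  | fin s hs => exact Cls.fin _ (hs.image i)
  | sum s Th i1 i2 bl t ht hs ih =>
    by_cases hne : Nonempty Th
    · obtain ⟨d⟩ := hne
      refine Cls.sum (i '' s) Th i1 i2 (Function.extend i bl (fun _ => d))
        (Function.extend i t (fun _ => False)) ?_ ?_
      · rintro _ ⟨v, hv, rfl⟩ _ ⟨w, hw, rfl⟩ hlt
        rw [i.injective.extend_apply, i.injective.extend_apply] at hlt
        rw [i.injective.extend_apply, SimpleGraph.map_adj_apply]
        exact ht v hv w hw hlt
      · intro x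
        have h1 : {w | w ∈ i '' s ∧ Function.extend i bl (fun _ => d) w = x} =
            i '' {w | w ∈ s ∧ bl w = x} := by
          ext w
          constructor
          · rintro ⟨⟨w, hw, rfl⟩, h2⟩
            rw [i.injective.extend_apply] at h2
            exact ⟨w, ⟨hw, h2⟩, rfl⟩
          · rintro ⟨w, ⟨hw, h2⟩, rfl⟩
            exact ⟨⟨w, hw, rfl⟩, by rw [i.injective.extend_apply]; exact h2⟩
        rw [h1]
        exact ih x
    · have h1 : s = ∅ := Set.eq_empty_of_forall_notMem fun w _ => hne ⟨bl w⟩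
      rw [h1, Set.image_empty]
      exact Cls.fin _ Set.finite_empty

/-- One graph for all colourings and all graphs of the class with at most `#K0` vertices. -/
theorem cls_main (C K0 : Type u) : ∃ (V : Type u) (G : SimpleGraph V),
    ∀ (f : G.edgeSet → C) (g : Gᶜ.edgeSet → C), ∃ c1 c0 : C,
      ∀ (W : Type u) (H : SimpleGraph W), #W ≤ #K0 → Cls H Set.univ →
        ∃ p : H ↪g G, ∀ x y : W, x ≠ y → HasType G f g c1 c0 (H.Adj x y) (p x) (p y) := by
  classical
  obtain ⟨M0, hM0⟩ := exists_homQ C K0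
  let M : Type u := ULift.{u} ℕ ⊕ (C ⊕ M0)
  have hM : ℵ₀ ≤ #M := by
    have h0 : #(ULift.{u} ℕ) ≤ #M := mk_le_of_injective (f := Sum.inl) Sum.inl_injective
    have h1 : #(ULift.{u} ℕ) = ℵ₀ := by simp
    rw [← h1]
    exact h0
  have hC : #C ≤ #M := mk_le_of_injective (f := fun c => Sum.inr (Sum.inl c))
    (Sum.inr_injective.comp Sum.inl_injective)
  have hK : #M0 ≤ #M := mk_le_of_injective (f := fun c => Sum.inr (Sum.inr c))
    (Sum.inr_injective.comp Sum.inr_injective)
  obtain ⟨V, G, hG⟩ := sysN C M hM hC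
  refine ⟨V, G, fun f g => ?_⟩
  obtain ⟨N, y, hN, hsys⟩ := hG (DdQ G f g) (DdQ_spec G f g)
  obtain ⟨cc, hcc⟩ := hM0 M hM hC hK V (DdQ G f g) N y (DdQ_symm G f g) hN hsys
  refine ⟨cc true, cc false, fun W H hW hH => ?_⟩
  obtain ⟨i⟩ := (Cardinal.le_def _ _).1 hW
  obtain ⟨E, -, hE⟩ := hcc (H.map i) (i '' Set.univ) (hH.map i H)
  have key : ∀ u v : W, u ≠ v → HasType G f g (cc true) (cc false) (H.Adj u v)
      (E (i u)) (E (i v)) := by
    intro u v huv
    have h1 := hE (i u) ⟨u, trivial, rfl⟩ (i v) ⟨v, trivial, rfl⟩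
      (fun h => huv (i.injective h))
    exact (DdQ_type h1).congr
      ((@decide_eq_true_iff _ (Classical.propDecidable _)).trans SimpleGraph.map_adj_apply)
  have hinj : Function.Injective fun u => (E (i u) : V) := by
    intro u v huv
    by_contra hne
    exact (key u v hne).ne huv
  refine ⟨⟨⟨fun u => (E (i u) : V), hinj⟩, ?_⟩, key⟩
  intro u v
  by_cases huv : u = v
  · subst huv
    simp
  · exact (key u v huv).adj_iff

end Pool.Agent.RKQ
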