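import Pool.Agent.RKQ.Cls

/-!
The states: the current block and the trunk after a finite sequence of tops.
-/

set_option autoImplicit false

open Cardinal Order

namespace Pool.Agent.RKQ

universe u

/-- the least rank -/
noncomputable def rkk {W : Type u} (H : SimpleGraph W) (s : Set W) : Ordinal.{u} :=
  sInf {o | Rk H o s}

theorem rk_rkk {W : Type u} {H : SimpleGraph W} {s : Set W} (h : Cls H s) :
    Rk H (rkk H s) s := by
  obtain ⟨o, ho⟩ := exists_rk h
  exact csInf_mem (s := {o | Rk H o s}) ⟨o, ho⟩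

theorem rkk_le {W : Type u} {H : SimpleGraph W} {s : Set W} {o : Ordinal.{u}} (h : Rk H o s) :
    rkk H s ≤ o := csInf_le' h

theorem cls_of_rk {W : Type u} {H : SimpleGraph W} (o : Ordinal.{u}) :
    ∀ s : Set W, Rk H o s → Cls H s := by
  induction o using WellFoundedLT.induction with
  | ind o ih =>
    intro s h
    rw [rk_iff] at h
    rcases h with h | ⟨Th, i1, i2, bl, t, ht, hs⟩
    · exact Cls.fin s h
    · refine Cls.sum s Th i1 i2 bl t ht fun x => ?_
      obtain ⟨o', ho', h'⟩ := hs x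
      exact ih o' ho' _ h'

section

variable {C V W T : Type u} (D : V → V → Option (Bool × C)) (cc : Bool → C) (N : Set V)
  (y : T → V)

/-- an entry of the history of a state: the realised vertices and their types -/
abbrev Ent (W : Type u) (N : Set V) : Type u := (W → Option N) × (W → Bool)

/-- the states -/
abbrev Sta (W : Type u) (N : Set V) : Type u := Set W × List (Ent W N)

/-- the vertex `v` fits for `x` to the tops and is over the trunk -/
def PzP (zs : List T) (h : List (Ent W N)) (x : W) (v : V) : Prop :=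
  List.Forall₂ (fun z p => D v (y z) = some (p.2 x, cc (p.2 x)) ∧
    ∀ (w : W) (a : N), p.1 w = some a → D a v = some (p.2 w, cc (p.2 w))) zs h

/-- the current block cannot be realised -/
def BadS (H : SimpleGraph W) (zs : List T) (σ : Sta W N) : Prop :=
  Cls H σ.1 ∧ ¬ Real D cc H N σ.1 (PzP D cc N y zs σ.2)

/-- the entry `p` fits to `Y` -/
def EFit (p : Ent W N) (Y : V) : Prop :=
  ∀ (w : W) (a : N), p.1 w = some a → D a Y = some (p.2 w, cc (p.2 w))

/-- the next state -/
def GoodS (H : SimpleGraph W) (zs : List T) (σ : Sta W N) (z : T) (σ' : Sta W N) : Prop :=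
  ∃ p : Ent W N, σ'.2 = p :: σ.2 ∧ EFit D cc N p (y z) ∧ BadS D cc N y H (z :: zs) σ' ∧
    rkk H σ'.1 < rkk H σ.1

theorem exists_goodS (H : SimpleGraph W) (v0 : N) (hD : ∀ v w, D v w = D w v) (zs : List T)
    (σ : Sta W N) (h : BadS D cc N y H zs σ) (hi : σ.1.Infinite) (z : T) :
    ∃ σ', GoodS D cc N y H zs σ z σ' := by
  classical
  obtain ⟨hc, hr⟩ := h
  have h1 := rk_rkk hc
  rw [rk_iff] at h1
  rcases h1 with h1 | ⟨Th, i1, i2, bl, t, ht, hs⟩
  · exact absurd h1 hi
  obtain ⟨x0, F, hF, hbad⟩ := exists_child D cc H N v0 hD σ.1 bl t ht (y z)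
    (PzP D cc N y zs σ.2) hr
  refine ⟨({w | w ∈ σ.1 ∧ bl w = x0},
    (fun w => if w ∈ σ.1 ∧ bl w < x0 then some (F w) else none, fun w => decide (t w)) :: σ.2),
    (fun w => if w ∈ σ.1 ∧ bl w < x0 then some (F w) else none, fun w => decide (t w)),
    rfl, ?_, ⟨?_, ?_⟩, ?_⟩
  · intro w a hwa
    simp only at hwa ⊢
    by_cases hw : w ∈ σ.1 ∧ bl w < x0
    · rw [if_pos hw] at hwa
      rw [← Option.some.inj hwa]
      exact hF w hw.1 hw.2
    · rw [if_neg hw] at hwa
      cases hwa
  · obtain ⟨o', -, ho'⟩ := hs x0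
    exact cls_of_rk o' _ ho'
  · intro hreal
    apply hbad
    obtain ⟨E, hE1, hE2⟩ := hreal
    refine ⟨E, fun x hx => ?_, hE2⟩
    obtain ⟨⟨h2, h3⟩, h4⟩ := List.forall₂_cons.1 (hE1 x hx)
    refine ⟨h4, h2, fun w hw hwx => ?_⟩
    exact h3 w (F w) (if_pos ⟨hw, hwx⟩)
  · obtain ⟨o', ho', h2⟩ := hs x0
    exact lt_of_le_of_lt (rkk_le h2) ho'

open Classical in
/-- the state after a list of tops -/
noncomputable def St (H : SimpleGraph W) (S : Set W) : List T → Sta W N
  | [] => (S, [])
  | z :: zs => if h : ∃ σ', GoodS D cc N y H zs (St H S zs) z σ' then h.choose else St H S zs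

theorem st_cons (H : SimpleGraph W) (S : Set W) (v0 : N) (hD : ∀ v w, D v w = D w v)
    (zs : List T) (h : BadS D cc N y H zs (St D cc N y H S zs))
    (hi : (St D cc N y H S zs).1.Infinite) (z : T) :
    GoodS D cc N y H zs (St D cc N y H S zs) z (St D cc N y H S (z :: zs)) := by
  classical
  have h1 := exists_goodS D cc N y H v0 hD zs _ h hi z
  have h2 : St D cc N y H S (z :: zs) = h1.choose := dif_pos h1
  rw [h2]
  exact h1.choose_spec

end

end Pool.Agent.RKQ
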